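import Pool.Agent.H80.DIC.Tree
import Pool.Agent.H31.W.H73.D2.Tmw
import Pool.Agent.H31.W.H80.DIC.Dic
import Pool.Agent.H3.W.Bas
import Pool.Agent.H57.SWC.Lx

/-!
# Cases at a window, place by place

`AllQ`: the property at the window. `CasW`: at every window in `W` a class theorem `CelZ` of a place
in `I` applies, all its conditions `Z lam` hold at the window. `CasW.cel`, `CasW.leaf`, `CasW.step`,
`VoidL.cas`: the rules. `stas_of_c`: at almost every window one of the places is static.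
`lCellB_of_c`, `lV0A_of_c`, `lV0B_of_c`, `lV01_of_c`: the joints. `VoidZ`, `CasV`, `void_of_c`: void
windows.
-/

set_option autoImplicit false

namespace Pool.W.PKG

open Pool.PKG

open MeasureTheory Set Filter Topology
open Pool.Agent.H49.Ent Pool.Agent.H32.Dense Pool.STK Pool.KA Pool.KSAT Pool.K2S Pool.PB
open Pool.GEN Pool.S6C Pool.STAT Pool.CHT Pool.GRW Pool.ONE Pool.STA
open Pool.TOP (TopS)
open Pool.LA91 (sumQ)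
open Pool.STR (ThinAt SteepAt StaAt sta_of_pairs)


/-- **Cases at a window**: at every window in `W` there is a class theorem of a place in `I`, all the
conditions of which hold at the window. -/
def CasW {ι : Type} (n : ℕ) (I : Set ℕ) (h : ℝ) (Sl : ℕ → ℝ) (κ : ℕ → Pool.PKG.Kg) (Q : Pool.PKG.PropG n ι)
    (W : Pool.PKG.PropW n) : Prop :=
  ∀ (S : Pool.PB.PCl n) (P : List (Fin n) × Fin n → ℝ → ℝ → ℝ) (θ : ℝ) (c : ℕ → Fin n)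
    (Pt : ℝ → ℝ → ℝ) (r : ℝ → ℝ) (L T : ℕ → ℝ → ℝ → ℝ) (G : Set ℝ) (g : ℝ),
    Pool.PKG.GdW n Sl S L G g → Pool.PKG.AllQ Q S P θ c Pt r L T κ G g → W S P θ c Pt r L T κ G g →
    ∃ i ∈ I, ∃ (Lm : Type) (Z : Lm → Pool.PKG.PropW n), Pool.W.PKG.CelZ n i h Sl κ Q Z ∧
      ∀ lam, Z lam S P θ c Pt r L T κ G g

/-- **The class theorem of a void kind of windows** under the hypothesis `Z lam` on the class. -/
def VoidZ {ι Λ : Type} (n : ℕ) (h : ℝ) (Sl : ℕ → ℝ) (κ : ℕ → Pool.PKG.Kg) (Q : Pool.PKG.PropG n ι)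
    (Z : Λ → Pool.PKG.PropW n) : Prop :=
  ∀ al : ℝ, 0 < al → ∀ K₀ : ℝ, 0 < K₀ → ∀ S₀ : ℕ, 1 ≤ S₀ →
    ∃ (K : ℝ) (N : ℕ) (A V : ℕ → ℝ), 1 ≤ K ∧ (∀ k < N, -K ≤ V k ∧ V k ≤ A k ∧ A k ≤ K) ∧
    ∀ S₂ : ℕ, S₀ ≤ S₂ → ∃ (lam : Λ) (K' : ℝ) (N' : ℕ) (V' : ℕ → ℝ), K ≤ K' ∧
      (∀ k < N', -K' ≤ V' k ∧ V' k ≤ K') ∧
      ∃ ε : ℝ, 0 < ε ∧ ∀ (S : Pool.PB.PCl n) (g₀ : ℝ → ℝ) (P : List (Fin n) × Fin n → ℝ → ℝ → ℝ)
      (θ : ℝ) (P₂ : ℕ → List (Fin n) × Fin n → ℝ → ℝ → ℝ) (θ₂ Eb e₂ : ℕ → ℝ) (c : ℕ → Fin n)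
      (Pt : ℝ → ℝ → ℝ) (r : ℝ → ℝ) (L T : ℕ → ℝ → ℝ → ℝ) (G : Set ℝ) (g : ℝ),
      IsClosed G → g ∈ G → (∀ l < n, HasDerivAt (fun x => L l x x) (Sl l) g) →
      Z lam S P θ c Pt r L T κ G g →
      ∃ (p : ℕ → ι) (M : ℕ) (B₀ B₁ : ℕ → ℝ),
      (∀ j < M, B₀ j < B₁ j) ∧ ∀ k₀ : ℕ → ℕ,
      (∀ j < M, Q (p j) (k₀ j) S P θ c Pt r L T κ G g) →
      ∃ q₁ : ℝ, 0 < q₁ ∧ ∀ (q t : ℝ) (x : ℕ → ℝ),
      q < q₁ → (∀ j < M, x j ∈ G ∧ t + B₀ j * q ≤ x j ∧ x j ≤ t + B₁ j * q ∧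
        Q (p j) (k₀ j) S P θ c Pt r L T κ G (x j)) →
      Pool.W.PKG.RecG S al g₀ P θ P₂ θ₂ Eb e₂ c Pt r h K₀ g L T Sl κ G S₀ N A V S₂ N' V' K' ε q t → False

/-- **Cases at a void window**. -/
def CasV {ι : Type} (n : ℕ) (h : ℝ) (Sl : ℕ → ℝ) (κ : ℕ → Pool.PKG.Kg) (Q : Pool.PKG.PropG n ι)
    (W : Pool.PKG.PropW n) : Prop :=
  ∀ (S : Pool.PB.PCl n) (P : List (Fin n) × Fin n → ℝ → ℝ → ℝ) (θ : ℝ) (c : ℕ → Fin n)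
    (Pt : ℝ → ℝ → ℝ) (r : ℝ → ℝ) (L T : ℕ → ℝ → ℝ → ℝ) (G : Set ℝ) (g : ℝ),
    Pool.PKG.GdW n Sl S L G g → Pool.PKG.AllQ Q S P θ c Pt r L T κ G g → W S P θ c Pt r L T κ G g →
    ∃ (Lm : Type) (Z : Lm → Pool.PKG.PropW n), Pool.W.PKG.VoidZ n h Sl κ Q Z ∧
      ∀ lam, Z lam S P θ c Pt r L T κ G g

section

variable {ι ι' Lm L₀ : Type} {n i : ℕ} {I : Set ℕ} {h : ℝ} {Sl : ℕ → ℝ} {κ : ℕ → Pool.PKG.Kg}
  {Q : Pool.PKG.PropG n ι} {Q' : Pool.PKG.PropG n ι'} {W W' : Pool.PKG.PropW n}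

/-! ### The property -/


/-- A class theorem with more properties at hand. -/
theorem CelZ.inl {Z : Lm → Pool.PKG.PropW n} (H : Pool.W.PKG.CelZ n i h Sl κ Q Z) :
    Pool.W.PKG.CelZ n i h Sl κ (Pool.LA91.sumQ Q Q') Z := by
  intro al hal K₀ hK₀ del hdel S₀ hS₀
  obtain ⟨K, N, A, V, h1, h2, H⟩ := H al hal K₀ hK₀ del hdel S₀ hS₀
  refine ⟨K, N, A, V, h1, h2, fun S₂ hS₂ => ?_⟩
  obtain ⟨lam, K', N', V', h3, h4, ε, hε, H⟩ := H S₂ hS₂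
  refine ⟨lam, K', N', V', h3, h4, ε, hε, fun S g₀ P θ P₂ θ₂ Eb e₂ c Pt r L T G g hG hg hd hZ => ?_⟩
  obtain ⟨p, M, B₀, B₁, hB, H⟩ := H S g₀ P θ P₂ θ₂ Eb e₂ c Pt r L T G g hG hg hd hZ
  exact ⟨fun k => Sum.inl (p k), M, B₀, B₁, hB, H⟩

theorem CelZ.inr {Z : Lm → Pool.PKG.PropW n} (H : Pool.W.PKG.CelZ n i h Sl κ Q' Z) :
    Pool.W.PKG.CelZ n i h Sl κ (Pool.LA91.sumQ Q Q') Z := by
  intro al hal K₀ hK₀ del hdel S₀ hS₀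
  obtain ⟨K, N, A, V, h1, h2, H⟩ := H al hal K₀ hK₀ del hdel S₀ hS₀
  refine ⟨K, N, A, V, h1, h2, fun S₂ hS₂ => ?_⟩
  obtain ⟨lam, K', N', V', h3, h4, ε, hε, H⟩ := H S₂ hS₂
  refine ⟨lam, K', N', V', h3, h4, ε, hε, fun S g₀ P θ P₂ θ₂ Eb e₂ c Pt r L T G g hG hg hd hZ => ?_⟩
  obtain ⟨p, M, B₀, B₁, hB, H⟩ := H S g₀ P θ P₂ θ₂ Eb e₂ c Pt r L T G g hG hg hd hZ
  exact ⟨fun k => Sum.inr (p k), M, B₀, B₁, hB, H⟩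

theorem VoidZ.inl {Z : Lm → Pool.PKG.PropW n} (H : Pool.W.PKG.VoidZ n h Sl κ Q Z) :
    Pool.W.PKG.VoidZ n h Sl κ (Pool.LA91.sumQ Q Q') Z := by
  intro al hal K₀ hK₀ S₀ hS₀
  obtain ⟨K, N, A, V, h1, h2, H⟩ := H al hal K₀ hK₀ S₀ hS₀
  refine ⟨K, N, A, V, h1, h2, fun S₂ hS₂ => ?_⟩
  obtain ⟨lam, K', N', V', h3, h4, ε, hε, H⟩ := H S₂ hS₂
  refine ⟨lam, K', N', V', h3, h4, ε, hε, fun S g₀ P θ P₂ θ₂ Eb e₂ c Pt r L T G g hG hg hd hZ => ?_⟩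
  obtain ⟨p, M, B₀, B₁, hB, H⟩ := H S g₀ P θ P₂ θ₂ Eb e₂ c Pt r L T G g hG hg hd hZ
  exact ⟨fun k => Sum.inl (p k), M, B₀, B₁, hB, H⟩

theorem VoidZ.inr {Z : Lm → Pool.PKG.PropW n} (H : Pool.W.PKG.VoidZ n h Sl κ Q' Z) :
    Pool.W.PKG.VoidZ n h Sl κ (Pool.LA91.sumQ Q Q') Z := by
  intro al hal K₀ hK₀ S₀ hS₀
  obtain ⟨K, N, A, V, h1, h2, H⟩ := H al hal K₀ hK₀ S₀ hS₀
  refine ⟨K, N, A, V, h1, h2, fun S₂ hS₂ => ?_⟩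
  obtain ⟨lam, K', N', V', h3, h4, ε, hε, H⟩ := H S₂ hS₂
  refine ⟨lam, K', N', V', h3, h4, ε, hε, fun S g₀ P θ P₂ θ₂ Eb e₂ c Pt r L T G g hG hg hd hZ => ?_⟩
  obtain ⟨p, M, B₀, B₁, hB, H⟩ := H S g₀ P θ P₂ θ₂ Eb e₂ c Pt r L T G g hG hg hd hZ
  exact ⟨fun k => Sum.inr (p k), M, B₀, B₁, hB, H⟩

/-! ### Forms of a class theorem -/


theorem CelZ.mono {Lm' : Type} {Z : Lm → Pool.PKG.PropW n} {Z' : Lm' → Pool.PKG.PropW n} (H : Pool.W.PKG.CelZ n i h Sl κ Q Z)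
    (f : Lm → Lm') (hf : ∀ lam S P θ c Pt r L T G g, Z' (f lam) S P θ c Pt r L T κ G g →
      Z lam S P θ c Pt r L T κ G g) : Pool.W.PKG.CelZ n i h Sl κ Q Z' := by
  intro al hal K₀ hK₀ del hdel S₀ hS₀
  obtain ⟨K, N, A, V, h1, h2, H⟩ := H al hal K₀ hK₀ del hdel S₀ hS₀
  refine ⟨K, N, A, V, h1, h2, fun S₂ hS₂ => ?_⟩
  obtain ⟨lam, K', N', V', h3, h4, ε, hε, H⟩ := H S₂ hS₂
  exact ⟨f lam, K', N', V', h3, h4, ε, hε, fun S g₀ P θ P₂ θ₂ Eb e₂ c Pt r L T G g hG hg hd hZ =>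
    H S g₀ P θ P₂ θ₂ Eb e₂ c Pt r L T G g hG hg hd (hf _ _ _ _ _ _ _ _ _ _ _ hZ)⟩


/-- A void kind of windows, as a class theorem of any place. -/
theorem VoidZ.cel {Z : Lm → Pool.PKG.PropW n} (H : Pool.W.PKG.VoidZ n h Sl κ Q Z) (i : ℕ) :
    Pool.W.PKG.CelZ n i h Sl κ Q Z := by
  intro al hal K₀ hK₀ del hdel S₀ hS₀
  obtain ⟨K, N, A, V, h1, h2, H⟩ := H al hal K₀ hK₀ S₀ hS₀
  refine ⟨K, N, A, V, h1, h2, fun S₂ hS₂ => ?_⟩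
  obtain ⟨lam, K', N', V', h3, h4, ε, hε, H⟩ := H S₂ hS₂
  refine ⟨lam, K', N', V', h3, h4, ε, hε, fun S g₀ P θ P₂ θ₂ Eb e₂ c Pt r L T G g hG hg hd hZ => ?_⟩
  obtain ⟨p, M, B₀, B₁, hB, H⟩ := H S g₀ P θ P₂ θ₂ Eb e₂ c Pt r L T G g hG hg hd hZ
  refine ⟨p, M, B₀, B₁, hB, fun k₀ hk₀ => ?_⟩
  obtain ⟨q₁, hq₁, H⟩ := H k₀ hk₀
  exact ⟨q₁, hq₁, fun q t x hq hx R => (H q t x hq hx R).elim⟩

/-! ### The rules -/

/-- **One place is settled unless one of its conditions fails**; then this amount is fixed. -/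
theorem CasW.cel {Z : Lm → Pool.PKG.PropW n} (hi : i ∈ I) (H : Pool.W.PKG.CelZ n i h Sl κ Q Z)
    (h2 : ∀ lam, Pool.W.PKG.CasW n I h Sl κ Q (Pool.PKG.AndW W (Pool.PKG.NotW (Z lam)))) : Pool.W.PKG.CasW n I h Sl κ Q W := by
  classical
  intro S P θ c Pt r L T G g hg hq hW
  by_cases hz : ∀ lam, Z lam S P θ c Pt r L T κ G g
  · exact ⟨i, hi, Lm, Z, H, hz⟩
  · rw [not_forall] at hz
    obtain ⟨lam, hz⟩ := hz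
    exact h2 lam S P θ c Pt r L T G g hg hq ⟨hW, hz⟩

/-- **A class theorem whose conditions follow.** -/
theorem CasW.leaf {Z : Lm → Pool.PKG.PropW n} (hi : i ∈ I) (H : Pool.W.PKG.CelZ n i h Sl κ Q Z)
    (h2 : ∀ S P θ c Pt r L T G g, Pool.PKG.GdW n Sl S L G g → Pool.PKG.AllQ Q S P θ c Pt r L T κ G g →
      W S P θ c Pt r L T κ G g → ∀ lam, Z lam S P θ c Pt r L T κ G g) : Pool.W.PKG.CasW n I h Sl κ Q W :=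
  fun S P θ c Pt r L T G g hg hq hW =>
    ⟨i, hi, Lm, Z, H, h2 S P θ c Pt r L T G g hg hq hW⟩

/-- **A step**: one of several cases. -/
theorem CasW.step {W' : L₀ → Pool.PKG.PropW n} (h2 : ∀ S P θ c Pt r L T G g, Pool.PKG.GdW n Sl S L G g →
      Pool.PKG.AllQ Q S P θ c Pt r L T κ G g → W S P θ c Pt r L T κ G g →
      ∃ a, W' a S P θ c Pt r L T κ G g) (H : ∀ a, Pool.W.PKG.CasW n I h Sl κ Q (W' a)) :
    Pool.W.PKG.CasW n I h Sl κ Q W := by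
  intro S P θ c Pt r L T G g hg hq hW
  obtain ⟨a, ha⟩ := h2 S P θ c Pt r L T G g hg hq hW
  exact H a S P θ c Pt r L T G g hg hq ha

/-- **Two cases.** -/
theorem CasW.or (Y : Pool.PKG.PropW n) (h1 : Pool.W.PKG.CasW n I h Sl κ Q (Pool.PKG.AndW W Y))
    (h2 : Pool.W.PKG.CasW n I h Sl κ Q (Pool.PKG.AndW W (Pool.PKG.NotW Y))) : Pool.W.PKG.CasW n I h Sl κ Q W := by
  classical
  intro S P θ c Pt r L T G g hg hq hW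
  by_cases hY : Y S P θ c Pt r L T κ G g
  · exact h1 S P θ c Pt r L T G g hg hq ⟨hW, hY⟩
  · exact h2 S P θ c Pt r L T G g hg hq ⟨hW, hY⟩

theorem CasW.imp (H : Pool.W.PKG.CasW n I h Sl κ Q W')
    (h2 : ∀ S P θ c Pt r L T G g, Pool.PKG.GdW n Sl S L G g → Pool.PKG.AllQ Q S P θ c Pt r L T κ G g →
      W S P θ c Pt r L T κ G g → W' S P θ c Pt r L T κ G g) : Pool.W.PKG.CasW n I h Sl κ Q W :=
  fun S P θ c Pt r L T G g hg hq hW =>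
    H S P θ c Pt r L T G g hg hq (h2 S P θ c Pt r L T G g hg hq hW)

theorem CasW.mono {I' : Set ℕ} (H : Pool.W.PKG.CasW n I h Sl κ Q W) (hI : I ⊆ I') :
    Pool.W.PKG.CasW n I' h Sl κ Q W := fun S P θ c Pt r L T G g hg hq hW => by
  obtain ⟨i, hi, Lm, Z, H⟩ := H S P θ c Pt r L T G g hg hq hW
  exact ⟨i, hI hi, Lm, Z, H⟩


/-- Void windows. -/
theorem CasV.cas (H : Pool.W.PKG.CasV n h Sl κ Q W) (hi : i ∈ I) : Pool.W.PKG.CasW n I h Sl κ Q W :=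
  fun S P θ c Pt r L T G g hg hq hW => by
    obtain ⟨Lm, Z, H, hz⟩ := H S P θ c Pt r L T G g hg hq hW
    exact ⟨i, hi, Lm, Z, H.cel i, hz⟩

theorem CasV.vo {Z : Lm → Pool.PKG.PropW n} (H : Pool.W.PKG.VoidZ n h Sl κ Q Z)
    (h2 : ∀ lam, Pool.W.PKG.CasV n h Sl κ Q (Pool.PKG.AndW W (Pool.PKG.NotW (Z lam)))) : Pool.W.PKG.CasV n h Sl κ Q W := by
  classical
  intro S P θ c Pt r L T G g hg hq hW
  by_cases hz : ∀ lam, Z lam S P θ c Pt r L T κ G g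
  · exact ⟨Lm, Z, H, hz⟩
  · rw [not_forall] at hz
    obtain ⟨lam, hz⟩ := hz
    exact h2 lam S P θ c Pt r L T G g hg hq ⟨hW, hz⟩

theorem CasV.leaf {Z : Lm → Pool.PKG.PropW n} (H : Pool.W.PKG.VoidZ n h Sl κ Q Z)
    (h2 : ∀ S P θ c Pt r L T G g, Pool.PKG.GdW n Sl S L G g → Pool.PKG.AllQ Q S P θ c Pt r L T κ G g →
      W S P θ c Pt r L T κ G g → ∀ lam, Z lam S P θ c Pt r L T κ G g) : Pool.W.PKG.CasV n h Sl κ Q W :=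
  fun S P θ c Pt r L T G g hg hq hW => ⟨Lm, Z, H, h2 S P θ c Pt r L T G g hg hq hW⟩

theorem CasV.step {W' : L₀ → Pool.PKG.PropW n} (h2 : ∀ S P θ c Pt r L T G g, Pool.PKG.GdW n Sl S L G g →
      Pool.PKG.AllQ Q S P θ c Pt r L T κ G g → W S P θ c Pt r L T κ G g →
      ∃ a, W' a S P θ c Pt r L T κ G g) (H : ∀ a, Pool.W.PKG.CasV n h Sl κ Q (W' a)) :
    Pool.W.PKG.CasV n h Sl κ Q W := by
  intro S P θ c Pt r L T G g hg hq hW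
  obtain ⟨a, ha⟩ := h2 S P θ c Pt r L T G g hg hq hW
  exact H a S P θ c Pt r L T G g hg hq ha

theorem CasV.or (Y : Pool.PKG.PropW n) (h1 : Pool.W.PKG.CasV n h Sl κ Q (Pool.PKG.AndW W Y))
    (h2 : Pool.W.PKG.CasV n h Sl κ Q (Pool.PKG.AndW W (Pool.PKG.NotW Y))) : Pool.W.PKG.CasV n h Sl κ Q W := by
  classical
  intro S P θ c Pt r L T G g hg hq hW
  by_cases hY : Y S P θ c Pt r L T κ G g
  · exact h1 S P θ c Pt r L T G g hg hq ⟨hW, hY⟩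
  · exact h2 S P θ c Pt r L T G g hg hq ⟨hW, hY⟩

end

variable {n : ℕ} {hn : 2 ≤ n} {S : Pool.PB.PCl n} {P : ℝ → ℝ → ℝ} {r : ℝ → ℝ}
  {P' : ℕ → List (Fin n) × Fin n → ℝ → ℝ → ℝ} {Λ : Finset (Fin n) → Fin n → ℝ → ℝ → ℝ}
  {PB : ℕ → List (Fin n) × Fin n → ℝ → ℝ → ℝ}


end Pool.W.PKG

namespace Pool.W.ASM

open Pool.ASM

open MeasureTheory Set Filter Topology
open Pool.GEN Pool.PKG Pool.SW
open Pool.ONE (Ext0 Ext)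
open Pool.MIC6
open Pool.STR (StaAt SteepAt ThinAt)


end Pool.W.ASM
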