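import Pool.Agent.H80.DIC.Treer
import Pool.Agent.H31.W.H80.DIC.Tree

/-!
# Cases at a window by the rate of the last coordinate alone

`FulA`: all the rates are the full one. `LowR`: one admissible family has a rate `φ ≤ β'`, to every
accuracy; `LowE`: to one accuracy. `CasW.rt`, `CasV.rt`: the two cases.
-/

set_option autoImplicit false

namespace Pool.W.ALT

open Pool.ALT

open Finset Real
open Pool.Agent.H49.Ent Pool.Agent.H32.Dense Pool.STK Pool.KA Pool.KSAT Pool.K2S Pool.PB Pool.S6C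
  Pool.GEN Pool.RCD Pool.LA91 Pool.OWN68 Pool.PKG Pool.CHT Pool.GRW


variable {ι : Type} {n : ℕ} {I : Set ℕ} {h : ℝ} {Sl : ℕ → ℝ} {κ : ℕ → Pool.PKG.Kg} {Q : Pool.PKG.PropG n ι}
  {W : Pool.PKG.PropW n} {Adm : Pool.ALT.AltJ → Pool.PKG.PropW n} {β : ℝ}


/-- **Two cases**: full rates, or a family of small rate. -/
theorem _root_.Pool.W.PKG.CasW.rt (Adm : Pool.ALT.AltJ → Pool.PKG.PropW n) (β : ℝ)
    (hQ : ∀ S P θ c Pt r L T G g, Pool.PKG.AllQ Q S P θ c Pt r L T κ G g →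
      Pool.PKG.AllQ (Pool.ALT.AltQ : Pool.PKG.PropG n Pool.ALT.AltI) S P θ c Pt r L T κ G g)
    (hA : Pool.W.PKG.CasW n I h Sl κ Q (Pool.PKG.AndW W (Pool.ALT.FulA Adm β)))
    (hB : ∀ β' : ℝ, β' < β → ∀ D : ℕ, Pool.W.PKG.CasW n I h Sl κ Q (Pool.PKG.AndW W (Pool.ALT.LowR Adm β' D))) :
    Pool.W.PKG.CasW n I h Sl κ Q W := by
  classical
  intro S P θ c Pt r L T G g hg hq hW
  by_cases hA' : Pool.ALT.FulA Adm β S P θ c Pt r L T κ G g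
  · exact hA S P θ c Pt r L T G g hg hq ⟨hW, hA'⟩
  · obtain ⟨δ, D, hδ, hn⟩ : ∃ (δ : ℝ) (D : ℕ), 0 < δ ∧ ¬ Pool.ALT.FulR Adm β δ D S P θ c Pt r L T κ G g := by
      by_contra hcon
      refine hA' fun δ D hδ => ?_
      by_contra h1
      exact hcon ⟨δ, D, hδ, h1⟩
    exact hB (β - δ / 2) (by linarith) D S P θ c Pt r L T G g hg hq
      ⟨hW, Pool.ALT.low_of_not hδ hg (hQ S P θ c Pt r L T G g hq) hn⟩

/-- **Two cases of void windows**. -/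
theorem _root_.Pool.W.PKG.CasV.rt (Adm : Pool.ALT.AltJ → Pool.PKG.PropW n) (β : ℝ)
    (hQ : ∀ S P θ c Pt r L T G g, Pool.PKG.AllQ Q S P θ c Pt r L T κ G g →
      Pool.PKG.AllQ (Pool.ALT.AltQ : Pool.PKG.PropG n Pool.ALT.AltI) S P θ c Pt r L T κ G g)
    (hA : Pool.W.PKG.CasV n h Sl κ Q (Pool.PKG.AndW W (Pool.ALT.FulA Adm β)))
    (hB : ∀ β' : ℝ, β' < β → ∀ D : ℕ, Pool.W.PKG.CasV n h Sl κ Q (Pool.PKG.AndW W (Pool.ALT.LowR Adm β' D))) :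
    Pool.W.PKG.CasV n h Sl κ Q W := by
  classical
  intro S P θ c Pt r L T G g hg hq hW
  by_cases hA' : Pool.ALT.FulA Adm β S P θ c Pt r L T κ G g
  · exact hA S P θ c Pt r L T G g hg hq ⟨hW, hA'⟩
  · obtain ⟨δ, D, hδ, hn⟩ : ∃ (δ : ℝ) (D : ℕ), 0 < δ ∧ ¬ Pool.ALT.FulR Adm β δ D S P θ c Pt r L T κ G g := by
      by_contra hcon
      refine hA' fun δ D hδ => ?_
      by_contra h1
      exact hcon ⟨δ, D, hδ, h1⟩
    exact hB (β - δ / 2) (by linarith) D S P θ c Pt r L T G g hg hq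
      ⟨hW, Pool.ALT.low_of_not hδ hg (hQ S P θ c Pt r L T G g hq) hn⟩

/-- **The class theorem under full rates** of some slack and complexity (`CelR`), as a case. -/
theorem _root_.Pool.W.PKG.CasW.ful {i : ℕ} (hi : i ∈ I)
    (H : Pool.W.PKG.CelZ n i h Sl κ Q (fun b : Pool.ALT.PosR × ℕ => Pool.PKG.AndW W (Pool.ALT.FulR Adm β b.1 b.2))) :
    Pool.W.PKG.CasW n I h Sl κ Q (Pool.PKG.AndW W (Pool.ALT.FulA Adm β)) :=
  Pool.W.PKG.CasW.leaf hi H fun _ _ _ _ _ _ _ _ _ _ _ _ hW b => ⟨hW.1, hW.2 _ _ b.1.2⟩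

/-- **The class theorem under a small rate** to some accuracy, as a case. -/
theorem _root_.Pool.W.PKG.CasW.low {i : ℕ} {β' : ℝ} {D : ℕ} (hi : i ∈ I)
    (H : Pool.W.PKG.CelZ n i h Sl κ Q (fun e : Pool.ALT.PosR => Pool.PKG.AndW W (Pool.ALT.LowE Adm β' D e))) :
    Pool.W.PKG.CasW n I h Sl κ Q (Pool.PKG.AndW W (Pool.ALT.LowR Adm β' D)) :=
  Pool.W.PKG.CasW.leaf hi H fun _ _ _ _ _ _ _ _ _ _ _ _ hW e => ⟨hW.1, hW.2.e e⟩

theorem _root_.Pool.W.PKG.CasV.low {β' : ℝ} {D : ℕ}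
    (H : Pool.W.PKG.VoidZ n h Sl κ Q (fun e : Pool.ALT.PosR => Pool.PKG.AndW W (Pool.ALT.LowE Adm β' D e))) :
    Pool.W.PKG.CasV n h Sl κ Q (Pool.PKG.AndW W (Pool.ALT.LowR Adm β' D)) :=
  Pool.W.PKG.CasV.leaf H fun _ _ _ _ _ _ _ _ _ _ _ _ hW e => ⟨hW.1, hW.2.e e⟩

end Pool.W.ALT
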