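import Pool.Agent.H80.DIC.Tz
import Pool.Agent.H31.W.H73.D2.Tmw
import Pool.Agent.H31.W.H80.DIC.Dic
import Pool.Agent.H3.W.Bas

/-!
# The class theorem `CelZ` as a case

`CelZ.y`, `CelZ.l`: from `CelZ` to `CelY`, `CelL`. `celQH_three_z`: three kinds of windows, the first
one by `CelZ`.
-/

set_option autoImplicit false

namespace Pool.W.PKG

open Pool.PKG

variable {ι Λ L₀ : Type} {n i : ℕ} {h : ℝ} {Sl : ℕ → ℝ} {κ : ℕ → Pool.PKG.Kg} {Q : Pool.PKG.PropG n ι}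

theorem CelZ.y {Z : Λ → Pool.PKG.PropW n} (H : Pool.W.PKG.CelZ n i h Sl κ Q Z) : Pool.W.PKG.CelY n i h Sl κ Q Z := by
  intro al hal K₀ hK₀ del hdel S₀ hS₀
  obtain ⟨K, N, A, V, h1, h2, H⟩ := H al hal K₀ hK₀ del hdel S₀ hS₀
  exact ⟨K, N, A, V, h1, h2, fun S₂ hS₂ => H S₂ hS₂⟩

theorem CelZ.l {Z : Λ → Pool.PKG.PropW n} (H : Pool.W.PKG.CelZ n i h Sl κ Q Z) (L₀ : Type) :
    Pool.W.PKG.CelL n i h Sl κ Q (fun (_ : L₀) b => Z b) := H.y.l L₀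

end Pool.W.PKG

namespace Pool.W.ALT

open Pool.ALT

open Pool.PKG Pool.LA91


end Pool.W.ALT
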